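import Pool.Agent.P8H95.CD.Core

/-! Circulants over finite chain rings of prime characteristic (helper95). -/

set_option autoImplicit false

namespace Pool.Agent.P8H95.CD

open Polynomial Matrix Pool.Agent.R823.CC Pool.Agent.R839.Circ

universe u

theorem ceil_facts {e P : ℕ} (hP : 0 < P) :
    e ≤ (e + P - 1) / P * P ∧ ∀ i, e ≤ i * P → (e + P - 1) / P ≤ i := by
  constructor
  · have h1 := Nat.div_add_mod (e + P - 1) P
    have h2 := Nat.mod_lt (e + P - 1) hP
    rw [Nat.mul_comm]
    omega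
  · intro i hi
    refine Nat.lt_succ_iff.1 ((Nat.div_lt_iff_lt_mul hP).2 ?_)
    rw [Nat.succ_mul]
    omega

section chain

variable {R : Type u} [CommRing R]

theorem coprime_card [Finite R] {γ : R} (hmax : (Ideal.span {γ}).IsMaximal) (p : ℕ)
    [hp : Fact p.Prime] [CharP R p] {q m : ℕ} (hq : Nat.card (R ⧸ Ideal.span {γ}) = q)
    (hpm : ¬ p ∣ m) : Nat.Coprime m q := by
  letI := Ideal.Quotient.field (Ideal.span {γ})
  have : Finite (R ⧸ Ideal.span {γ}) :=
    Finite.of_surjective (Ideal.Quotient.mk (Ideal.span {γ})) Ideal.Quotient.mk_surjective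
  let _ := Fintype.ofFinite (R ⧸ Ideal.span {γ})
  have : CharP (R ⧸ Ideal.span {γ}) p := by
    apply (CharP.charP_iff_prime_eq_zero hp.out).2
    rw [← map_natCast (Ideal.Quotient.mk (Ideal.span {γ})) p, CharP.cast_eq_zero, map_zero]
  obtain ⟨r, _, hr⟩ := FiniteField.card (R ⧸ Ideal.span {γ}) p
  rw [← hq, Nat.card_eq_fintype_card, hr]
  exact Nat.Coprime.pow_right _ (Nat.coprime_comm.1 ((Nat.Prime.coprime_iff_not_dvd hp.out).2 hpm))

variable {γ : R} {e : ℕ} (hmax : (Ideal.span {γ}).IsMaximal)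
  (he : IsLeast {s : ℕ | 0 < s ∧ γ ^ s = 0} e)
include hmax he

theorem pow_zero_iff {P : ℕ} (hP : 0 < P) (x : R) :
    x ^ P = 0 ↔ x ∈ Ideal.span {γ ^ ((e + P - 1) / P)} := by
  obtain ⟨c1, c2⟩ := ceil_facts (e := e) hP
  constructor
  · intro h
    obtain ⟨s, hs, u, hu, rfl⟩ := exists_form hmax he x
    rw [mul_pow, ← pow_mul] at h
    have h1 : γ ^ (s * P) = 0 := by
      have h5 := hu.pow P
      exact (h5.mul_left_eq_zero).1 h
    have h2 : e ≤ s * P := by
      rcases Nat.eq_zero_or_pos (s * P) with h4 | h4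
      · exfalso
        rw [h4, pow_zero] at h1
        exact hmax.ne_top ((Ideal.eq_top_iff_one _).2 (by rw [h1]; exact Ideal.zero_mem _))
      · exact he.2 ⟨h4, h1⟩
    have h3 := c2 s h2
    exact Ideal.mem_span_singleton.2 (Dvd.dvd.mul_right (pow_dvd_pow γ h3) u)
  · intro h
    obtain ⟨c, rfl⟩ := Ideal.mem_span_singleton.1 h
    rw [mul_pow, ← pow_mul]
    have h1 : γ ^ ((e + P - 1) / P * P) = 0 := pow_eq_zero_of_le c1 he.1.2
    rw [h1, zero_mul]

theorem unit_of (s : ℕ) (x : R) (h1 : x ∈ Ideal.span {γ ^ s}) (h2 : x ∉ Ideal.span {γ ^ (s + 1)}) :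
    ∃ b, IsUnit b ∧ x = γ ^ s * b := by
  obtain ⟨b, rfl⟩ := Ideal.mem_span_singleton.1 h1
  refine ⟨b, ?_, rfl⟩
  rw [isUnit_iff_notMem hmax ⟨e, he.1.2⟩]
  intro h3
  obtain ⟨c, rfl⟩ := Ideal.mem_span_singleton.1 h3
  exact h2 (Ideal.mem_span_singleton.2 ⟨c, by rw [pow_succ]; ring⟩)

theorem unit_add (b c : R) (hb : IsUnit b) : IsUnit (b + γ * c) := by
  rw [isUnit_iff_notMem hmax ⟨e, he.1.2⟩] at hb ⊢
  intro h
  apply hb
  have h1 : b = (b + γ * c) - γ * c := by ring
  rw [h1]
  exact Ideal.sub_mem _ h (Ideal.mem_span_singleton.2 ⟨c, rfl⟩)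

open scoped Classical in
theorem card_filter [Fintype R] {q : ℕ} (hq : Nat.card (R ⧸ Ideal.span {γ}) = q)
    {i : ℕ} (hi : i ≤ e) :
    (Finset.univ.filter (fun x : R => x ∈ Ideal.span {γ ^ i})).card = q ^ (e - i) := by
  rw [← hq, ← card_span hmax he hi, Nat.card_eq_fintype_card]
  exact (Fintype.card_of_subtype _ (fun x => by simp only [Finset.mem_filter, Finset.mem_univ, true_and])).symm

end chain

/-- the value of `c_m(R, γ^s b)` for `m` coprime to `q` -/
noncomputable def EE (e q m s : ℕ) : ℚ :=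
  (q : ℚ) ^ (e * (m - 1)) *
    (∏ d ∈ m.divisors.erase 1,
      (1 - 1 / (q : ℚ) ^ (orderOf (q : ZMod d))) ^
        (Nat.totient d / orderOf (q : ZMod d))) * P m q s

theorem main (R : Type u) [CommRing R] [Finite R] [Nontrivial R]
    (hchain : ∀ I J : Ideal R, I ≤ J ∨ J ≤ I) (γ : R) (hγ : (Ideal.span {γ}).IsMaximal)
    (e : ℕ) (he : γ ^ e = 0) (hmin : ∀ k < e, γ ^ k ≠ 0) (q : ℕ)
    (hq : Nat.card (R ⧸ Ideal.span {γ}) = q) (p : ℕ) (hp : p.Prime) [CharP R p]
    (m k : ℕ) (hm : 0 < m) (hpm : ¬ p ∣ m) :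
    (∀ a : R, (∀ b : R, b ^ p ^ k ≠ a) → circCount R (m * p ^ k) a = 0) ∧
    (∀ s : ℕ, s * p ^ k < e → ∀ b : R, IsUnit b →
      (circCount R (m * p ^ k) ((γ ^ s * b) ^ p ^ k) : ℚ) =
        (q : ℚ) ^ (e * (m * p ^ k - m)) * (q : ℚ) ^ (e - (e + p ^ k - 1) / p ^ k) *
          EE e q m s) ∧
    (circCount R (m * p ^ k) (0 : R) : ℚ) = (q : ℚ) ^ (e * (m * p ^ k)) -
      (q : ℚ) ^ (e * (m * p ^ k - m)) * ∑ s ∈ Finset.range ((e + p ^ k - 1) / p ^ k),
        ((q : ℚ) ^ (e - s) - (q : ℚ) ^ (e - s - 1)) * EE e q m s := by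
  classical
  have : Fact p.Prime := ⟨hp⟩
  have : NeZero m := ⟨hm.ne'⟩
  let _ := Fintype.ofFinite R
  have hP : 0 < p ^ k := pow_pos hp.pos k
  have hcop : Nat.Coprime m q := coprime_card hγ p hq hpm
  obtain ⟨hA, -⟩ := Pool.Agent.R823.CC.main R hchain γ hγ e he hmin q hq m hm hcop
  have hA' : ∀ s < e, ∀ b : R, IsUnit b → (circCount R m (γ ^ s * b) : ℚ) = EE e q m s := hA
  have e0 : 0 < e := by
    rcases Nat.eq_zero_or_pos e with h | h
    · rw [h, pow_zero] at he
      exact absurd he one_ne_zero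
    · exact h
  have hL : IsLeast {s : ℕ | 0 < s ∧ γ ^ s = 0} e :=
    ⟨⟨e0, he⟩, fun s hs => not_lt.1 fun h => hmin s h hs.2⟩
  have hcard : Nat.card R = q ^ e := by rw [card_ring hγ hL, hq]
  have hq0 : 0 < q := by rw [← hq]; exact Nat.card_pos
  have hq0' : (0 : ℚ) < q := by exact_mod_cast hq0
  have hmP : m ≤ m * p ^ k := Nat.le_mul_of_pos_right m hP
  have hred : ∀ a : R, (circCount R (m * p ^ k) a : ℚ) = (q : ℚ) ^ (e * (m * p ^ k - m)) *
      ∑ x ∈ Finset.univ.filter (fun x : R => x ^ p ^ k = a), (circCount R m x : ℚ) := by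
    intro a
    have h1 := count_red p m k a
    rw [card_fib m (p ^ k) a, hcard] at h1
    have h2 : ((circCount R (m * p ^ k) a : ℚ)) * ((q : ℚ) ^ e) ^ m =
        ((q : ℚ) ^ e) ^ (m * p ^ k) *
          ∑ x ∈ Finset.univ.filter (fun x : R => x ^ p ^ k = a), (circCount R m x : ℚ) := by
      exact_mod_cast h1
    have h3 : ((q : ℚ) ^ e) ^ (m * p ^ k) =
        (q : ℚ) ^ (e * (m * p ^ k - m)) * ((q : ℚ) ^ e) ^ m := by
      rw [← pow_mul, ← pow_mul, ← pow_add, ← Nat.mul_add, Nat.sub_add_cancel hmP]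
    rw [h3] at h2
    have h4 : ((q : ℚ) ^ e) ^ m ≠ 0 := by positivity
    apply mul_right_cancel₀ h4
    rw [h2]
    ring
  obtain ⟨c1, c2⟩ := ceil_facts (e := e) hP
  set t := (e + p ^ k - 1) / p ^ k with ht
  have hte : t ≤ e := c2 e (Nat.le_mul_of_pos_right e hP)
  have hzero : ∀ x : R, x ^ p ^ k = 0 ↔ x ∈ Ideal.span {γ ^ t} := pow_zero_iff hγ hL hP
  refine ⟨?_, ?_, ?_⟩
  · intro a ha
    have h1 := hred a
    rw [Finset.filter_false_of_mem (fun x _ => ha x), Finset.sum_empty, mul_zero] at h1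
    exact_mod_cast h1
  · intro s hs b hb
    have hst : s < t := by
      by_contra h
      have h1 : t * p ^ k ≤ s * p ^ k := Nat.mul_le_mul_right _ (not_lt.1 h)
      omega
    have hval : ∀ x ∈ Finset.univ.filter (fun x : R => x ^ p ^ k = (γ ^ s * b) ^ p ^ k),
        (circCount R m x : ℚ) = EE e q m s := by
      intro x hx
      have hx' : x ^ p ^ k = (γ ^ s * b) ^ p ^ k := (Finset.mem_filter.1 hx).2
      have h1 : (x - γ ^ s * b) ^ p ^ k = 0 := by
        rw [sub_pow_char_pow, hx', sub_self]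
      rw [hzero] at h1
      obtain ⟨c, hc⟩ := Ideal.mem_span_singleton.1 h1
      have h2 : x = γ ^ s * (b + γ * (γ ^ (t - s - 1) * c)) := by
        have h3 : γ ^ t = γ ^ s * (γ * γ ^ (t - s - 1)) := by
          rw [← pow_succ', ← pow_add]
          congr 1
          omega
        have h4 : x = γ ^ s * b + (x - γ ^ s * b) := by ring
        rw [h4, hc, h3]
        ring
      rw [h2]
      exact hA' s (lt_of_lt_of_le hst hte) _ (unit_add hγ hL b _ hb)
    have hcardf : (Finset.univ.filter (fun x : R => x ^ p ^ k = (γ ^ s * b) ^ p ^ k)).card =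
        q ^ (e - t) := by
      rw [← card_filter hγ hL hq hte]
      refine Finset.card_nbij' (fun x => x - γ ^ s * b) (fun y => y + γ ^ s * b) ?_ ?_ ?_ ?_
      · intro x hx
        simp only [Finset.coe_filter, Finset.mem_univ, true_and, Set.mem_ofPred_eq] at hx ⊢
        rw [← hzero, sub_pow_char_pow, hx, sub_self]
      · intro y hy
        simp only [Finset.coe_filter, Finset.mem_univ, true_and, Set.mem_ofPred_eq] at hy ⊢
        rw [add_pow_char_pow, (hzero y).2 hy, zero_add]
      · intro x _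
        ring
      · intro y _
        ring
    rw [hred, Finset.sum_congr rfl hval, Finset.sum_const, hcardf, nsmul_eq_mul]
    push_cast
    ring
  · have hN : ∀ i ≤ e, ∑ x ∈ Finset.univ.filter (fun x : R => x ∈ Ideal.span {γ ^ i}),
        (circCount R m x : ℚ) = (q : ℚ) ^ (e * m) -
          ∑ s ∈ Finset.range i, ((q : ℚ) ^ (e - s) - (q : ℚ) ^ (e - s - 1)) * EE e q m s := by
      intro i
      induction i with
      | zero =>
        intro _
        have h1 := card_fib m 0 (1 : R)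
        have h2 : Nat.card {w : Fin m → R // (Del m (pol w)) ^ 0 = 1} = q ^ (e * m) := by
          have h3 : Nat.card {w : Fin m → R // (Del m (pol w)) ^ 0 = 1} = Nat.card (Fin m → R) :=
            Nat.card_congr (Equiv.subtypeUnivEquiv (by intro w; rw [pow_zero]))
          rw [h3, Nat.card_pi, Finset.prod_const, Finset.card_univ, Fintype.card_fin, hcard,
            ← pow_mul]
        rw [h2] at h1
        simp only [pow_zero, Ideal.span_singleton_one, Submodule.mem_top, Finset.range_zero,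
          Finset.sum_empty, sub_zero] at h1 ⊢
        exact_mod_cast h1.symm
      | succ i ih =>
        intro hi
        have h1 := ih (by omega)
        have hsub : Finset.univ.filter (fun x : R => x ∈ Ideal.span {γ ^ (i + 1)}) ⊆
            Finset.univ.filter (fun x : R => x ∈ Ideal.span {γ ^ i}) := by
          intro x hx
          simp only [Finset.mem_filter, Finset.mem_univ, true_and] at hx ⊢
          rw [Ideal.mem_span_singleton] at hx ⊢
          exact dvd_trans (pow_dvd_pow γ (Nat.le_succ i)) hx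
        rw [← Finset.sum_sdiff hsub] at h1
        have h2 : ∀ x ∈ (Finset.univ.filter (fun x : R => x ∈ Ideal.span {γ ^ i})) \
            (Finset.univ.filter (fun x : R => x ∈ Ideal.span {γ ^ (i + 1)})),
            (circCount R m x : ℚ) = EE e q m i := by
          intro x hx
          simp only [Finset.mem_sdiff, Finset.mem_filter, Finset.mem_univ, true_and] at hx
          obtain ⟨b, hb, rfl⟩ := unit_of hγ hL i x hx.1 hx.2
          exact hA' i (by omega) b hb
        rw [Finset.sum_congr rfl h2, Finset.sum_const, Finset.card_sdiff_of_subset hsub,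
          card_filter hγ hL hq (show i ≤ e by omega), card_filter hγ hL hq hi, nsmul_eq_mul,
          Nat.cast_sub (Nat.pow_le_pow_right hq0 (by omega))] at h1
        rw [Finset.sum_range_succ]
        have h3 : e - (i + 1) = e - i - 1 := by omega
        rw [h3] at h1
        push_cast at h1
        linarith
    have h5 : Finset.univ.filter (fun x : R => x ^ p ^ k = 0) =
        Finset.univ.filter (fun x : R => x ∈ Ideal.span {γ ^ t}) := by
      ext x
      simp only [Finset.mem_filter, Finset.mem_univ, true_and]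
      exact hzero x
    rw [hred, h5, hN t hte, mul_sub, ← pow_add, ← Nat.mul_add, Nat.sub_add_cancel hmP]

end Pool.Agent.P8H95.CD
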