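import Pool.Agent.R823.CC.Final
import Pool.Agent.R839.CircCount
import Pool.Agent.R839.CircChain

/-! Determinants of circulant matrices over rings of prime characteristic (helper95). -/

set_option autoImplicit false

namespace Pool.Agent.P8H95.CD

open Polynomial Matrix Pool.Agent.R823.CC Pool.Agent.R839.Circ

universe u

section frob

variable {A : Type u} [CommRing A] (p : ℕ) [hp : Fact p.Prime] [CharP A p]

theorem Nm_eq (f : A[X]) : Nm p f = f.map (frobenius A p) := by
  ext i
  obtain ⟨g, hg⟩ := Nm_coeff p f i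
  rw [hg, coeff_map, frobenius_def, CharP.cast_eq_zero A p, zero_mul, add_zero]

theorem Del_frob (m : ℕ) (f : A[X]) : Del m (f.map (frobenius A p)) = (Del m f) ^ p := by
  rw [Del_map, frobenius_def]

theorem Del_pow (m k : ℕ) (f : A[X]) : Del (m * p ^ k) f = (Del m f) ^ p ^ k := by
  induction k generalizing f with
  | zero => simp
  | succ k ih =>
    rw [pow_succ, ← mul_assoc, Del_tower p (m * p ^ k) hp.out.pos, Nm_eq, Del_frob, ih, ← pow_mul]

end frob

section fold

variable {A : Type u} [CommRing A] (n m : ℕ) [NeZero n] [NeZero m]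

/-- folding a vector modulo `m` -/
noncomputable def fold : (Fin n → A) →+ (Fin m → A) where
  toFun v := fun j => ∑ i : Fin n, if (i : ℕ) % m = j then v i else 0
  map_zero' := by funext j; simp
  map_add' v w := by
    funext j
    simp only [Pi.add_apply]
    rw [← Finset.sum_add_distrib]
    refine Finset.sum_congr rfl fun i _ => ?_
    split_ifs <;> simp

theorem fold_surj (h : m ≤ n) : Function.Surjective (fold (A := A) n m) := by
  intro w
  refine ⟨fun i => if hi : (i : ℕ) < m then w ⟨i, hi⟩ else 0, ?_⟩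
  funext j
  change (∑ i : Fin n, if (i : ℕ) % m = j then (if hi : (i : ℕ) < m then w ⟨i, hi⟩ else 0) else 0) = w j
  rw [Finset.sum_eq_single (⟨j, lt_of_lt_of_le j.isLt h⟩ : Fin n)]
  · simp [Nat.mod_eq_of_lt j.isLt]
  · intro i _ hi
    by_cases h1 : (i : ℕ) < m
    · rw [if_neg]
      intro h2
      rw [Nat.mod_eq_of_lt h1] at h2
      exact hi (Fin.ext h2)
    · simp [h1]
  · simp

theorem Q_pow_mod (r : ℕ) : (Q m (1 : A)) ^ r = (Q m (1 : A)) ^ (r % m) := by
  have h1 : (Q m (1 : A)) ^ m = 1 := by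
    rw [Q_pow_self, map_one]
  conv_lhs => rw [← Nat.mod_add_div r m]
  rw [pow_add, pow_mul, h1, one_pow, mul_one]

theorem aeval_fold (v : Fin n → A) :
    aeval (Q m (1 : A)) (pol v) = aeval (Q m (1 : A)) (pol (fold n m v)) := by
  have h1 : aeval (Q m (1 : A)) (pol v) = ∑ i : Fin n, v i • (Q m (1 : A)) ^ (i : ℕ) := by
    rw [pol, map_sum]
    refine Finset.sum_congr rfl fun i _ => ?_
    rw [map_mul, aeval_C, map_pow, aeval_X, Algebra.smul_def]
  have h2 : aeval (Q m (1 : A)) (pol (fold n m v)) =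
      ∑ j : Fin m, (fold n m v) j • (Q m (1 : A)) ^ (j : ℕ) := by
    rw [pol, map_sum]
    refine Finset.sum_congr rfl fun i _ => ?_
    rw [map_mul, aeval_C, map_pow, aeval_X, Algebra.smul_def]
  rw [h1, h2]
  have h3 : ∀ j : Fin m, (fold n m v) j • (Q m (1 : A)) ^ (j : ℕ) =
      ∑ i : Fin n, if (i : ℕ) % m = j then v i • (Q m (1 : A)) ^ (i : ℕ) else 0 := by
    intro j
    change (∑ i : Fin n, if (i : ℕ) % m = j then v i else 0) • _ = _
    rw [Finset.sum_smul]
    refine Finset.sum_congr rfl fun i _ => ?_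
    by_cases h : (i : ℕ) % m = j
    · rw [if_pos h, if_pos h, Q_pow_mod m (i : ℕ), h]
    · rw [if_neg h, if_neg h, zero_smul]
  rw [Finset.sum_congr rfl fun j _ => h3 j, Finset.sum_comm]
  refine Finset.sum_congr rfl fun i _ => ?_
  rw [Finset.sum_eq_single (⟨(i : ℕ) % m, Nat.mod_lt _ (NeZero.pos m)⟩ : Fin m)]
  · simp
  · intro j _ hj
    rw [if_neg]
    intro h
    exact hj (Fin.ext h.symm)
  · simp

theorem Del_fold (v : Fin n → A) : Del m (pol v) = Del m (pol (fold n m v)) := by
  rw [Del, Del, aeval_fold]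

end fold

theorem circCount_eq {R : Type u} [CommRing R] (n : ℕ) [NeZero n] (a : R) :
    circCount R n a = Nat.card {v : Fin n → R // Del n (pol v) = a} := by
  unfold circCount
  refine (Nat.card_congr (Equiv.ofBijective
    (fun v : {v : Fin n → R // Del n (pol v) = a} =>
      (⟨cir v.1, ⟨v.1, rfl⟩, (det_cirM v.1).trans v.2⟩ :
        {M : Matrix (Fin n) (Fin n) R // (∃ v : Fin n → R, M = cir v) ∧ M.det = a})) ⟨?_, ?_⟩)).symm
  · intro v w h
    have h1 : cirM v.1 = cirM w.1 := congrArg Subtype.val h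
    exact Subtype.ext (cirM_injective h1)
  · rintro ⟨M, ⟨v, rfl⟩, hM⟩
    refine ⟨⟨v, ?_⟩, rfl⟩
    rw [← det_cirM]
    exact hM

/-- The number of the circulants of size `m p^k` through the circulants of size `m`. -/
theorem count_red {R : Type u} [CommRing R] [Finite R] (p : ℕ) [Fact p.Prime] [CharP R p]
    (m k : ℕ) [NeZero m] (a : R) :
    circCount R (m * p ^ k) a * Nat.card R ^ m =
      Nat.card R ^ (m * p ^ k) * Nat.card {w : Fin m → R // (Del m (pol w)) ^ p ^ k = a} := by
  have hpk : 0 < p ^ k := pow_pos (Fact.out : p.Prime).pos k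
  have : NeZero (m * p ^ k) := ⟨(Nat.mul_pos (NeZero.pos m) hpk).ne'⟩
  have h1 := card_pull (fold (A := R) (m * p ^ k) m) (fold_surj (m * p ^ k) m
    (Nat.le_mul_of_pos_right m hpk)) (fun w => (Del m (pol w)) ^ p ^ k = a)
  have h2 : Nat.card {v : Fin (m * p ^ k) → R //
      (Del m (pol (fold (m * p ^ k) m v))) ^ p ^ k = a} = circCount R (m * p ^ k) a := by
    rw [circCount_eq]
    refine Nat.card_congr (Equiv.subtypeEquivRight fun v => ?_)
    rw [Del_pow p m k, Del_fold (m * p ^ k) m v]
  rw [h2] at h1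
  have h3 : ∀ l : ℕ, Nat.card (Fin l → R) = Nat.card R ^ l := by
    intro l
    rw [Nat.card_pi]
    simp
  rw [h3, h3] at h1
  exact h1

/-- the fibres over the elements with given `p^k`-th power -/
theorem card_fib {R : Type u} [CommRing R] [Finite R] (m P : ℕ) [NeZero m] (a : R) [Fintype R]
    [DecidableEq R] :
    Nat.card {w : Fin m → R // (Del m (pol w)) ^ P = a} =
      ∑ x ∈ Finset.univ.filter (fun x : R => x ^ P = a), circCount R m x := by
  classical
  have h1 : Nat.card {w : Fin m → R // (Del m (pol w)) ^ P = a} =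
      (Finset.univ.filter (fun w : Fin m → R => (Del m (pol w)) ^ P = a)).card := by
    rw [Nat.card_eq_fintype_card, Fintype.card_subtype]
  rw [h1, Finset.card_eq_sum_card_fiberwise (f := fun w : Fin m → R => Del m (pol w))
    (t := Finset.univ.filter (fun x : R => x ^ P = a))]
  · refine Finset.sum_congr rfl fun x hx => ?_
    rw [circCount_eq, Nat.card_eq_fintype_card, Fintype.card_subtype]
    congr 1
    ext w
    simp only [Finset.mem_filter, Finset.mem_univ, true_and]
    constructor
    · exact fun h => h.2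
    · intro h
      exact ⟨by rw [h]; exact (Finset.mem_filter.1 hx).2, h⟩
  · intro w hw
    simp only [Finset.coe_filter, Finset.mem_univ, true_and, Set.mem_ofPred_eq] at hw ⊢
    exact hw

end Pool.Agent.P8H95.CD
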