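import Pool.Agent.P8H95.CD.Step

/-! Circulants of size `m p^k` over arbitrary finite chain rings with `e ≤ τ_k` (helper95). -/

set_option autoImplicit false

namespace Pool.Agent.P8H95.CD

open Polynomial Matrix Pool.Agent.R823.CC Pool.Agent.R839.Circ

universe u

theorem mixed' (R : Type u) [CommRing R] [Finite R] [Nontrivial R]
    (hchain : ∀ I J : Ideal R, I ≤ J ∨ J ≤ I) (γ : R) (hγ : (Ideal.span {γ}).IsMaximal)
    (e : ℕ) (he : γ ^ e = 0) (hmin : ∀ k < e, γ ^ k ≠ 0) (q : ℕ)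
    (hq : Nat.card (R ⧸ Ideal.span {γ}) = q) (p : ℕ) (hp : p.Prime) (r : ℕ) (hr : 1 ≤ r)
    (hrp : γ ^ r ∣ (p : R)) (m k : ℕ) (hm : 0 < m) (hpm : ¬ p ∣ m) :
    (∀ a : R, γ ∣ a → ¬ γ ^ tau p r k ∣ a → circCount R (m * p ^ k) a = 0) ∧
    (e ≤ tau p r k → (circCount R (m * p ^ k) (0 : R) : ℚ) = (q : ℚ) ^ (e * (m * p ^ k)) -
      (q : ℚ) ^ (e * (m * p ^ k - m)) *
        (((q : ℚ) ^ e - (q : ℚ) ^ (e - 1)) * EE e q m 0)) := by
  classical
  have hpγ : γ ∣ (p : R) := by
    refine dvd_trans ?_ hrp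
    exact dvd_pow_self γ (by omega)
  have : Fact p.Prime := ⟨hp⟩
  have : NeZero m := ⟨hm.ne'⟩
  let _ := Fintype.ofFinite R
  have hP : 0 < p ^ k := pow_pos hp.pos k
  have : NeZero (m * p ^ k) := ⟨(Nat.mul_pos hm hP).ne'⟩
  have hcop : Nat.Coprime m q := coprime_card' hγ p hpγ hq hpm
  have e0 : 0 < e := by
    rcases Nat.eq_zero_or_pos e with h | h
    · rw [h, pow_zero] at he
      exact absurd he one_ne_zero
    · exact h
  have hL : IsLeast {s : ℕ | 0 < s ∧ γ ^ s = 0} e :=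
    ⟨⟨e0, he⟩, fun s hs => not_lt.1 fun h => hmin s h hs.2⟩
  have hcard : Nat.card R = q ^ e := by rw [card_ring hγ hL, hq]
  have hq0 : 0 < q := by rw [← hq]; exact Nat.card_pos
  have hq0' : (0 : ℚ) < q := by exact_mod_cast hq0
  have hmP : m ≤ m * p ^ k := Nat.le_mul_of_pos_right m hP
  have key0 : ∀ f : R[X], γ ∣ Del (m * p ^ k) f → γ ^ tau p r k ∣ Del (m * p ^ k) f := by
    intro f hf
    exact Del_tau p γ r hrp m k hm f ((dvd_Del_iff hγ p hpγ m k f).1 hf)
  refine ⟨?_, ?_⟩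
  · intro a ha ha0
    rw [circCount_eq]
    have : IsEmpty {v : Fin (m * p ^ k) → R // Del (m * p ^ k) (pol v) = a} := by
      refine ⟨fun v => ha0 ?_⟩
      rw [← v.2]
      exact key0 _ (by rw [v.2]; exact ha)
    exact Nat.card_of_isEmpty
  · intro hek
    have key : ∀ f : R[X], γ ∣ Del (m * p ^ k) f → Del (m * p ^ k) f = 0 := by
      intro f hf
      have h3 := key0 f hf
      rw [pow_eq_zero_of_le hek he] at h3
      exact zero_dvd_iff.1 h3
    have h1 : circCount R (m * p ^ k) (0 : R) =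
        Nat.card {v : Fin (m * p ^ k) → R // γ ∣ Del m (pol (fold (m * p ^ k) m v))} := by
      rw [circCount_eq]
      refine Nat.card_congr (Equiv.subtypeEquivRight fun v => ?_)
      rw [← Del_fold (m * p ^ k) m v, ← dvd_Del_iff hγ p hpγ m k]
      exact ⟨fun h => by rw [h]; exact dvd_zero γ, key _⟩
    have h2 := card_pull (fold (A := R) (m * p ^ k) m) (fold_surj (m * p ^ k) m hmP)
      (fun w => γ ∣ Del m (pol w))
    rw [← h1, card_fibP m (fun x : R => γ ∣ x)] at h2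
    have h3 : ∀ l : ℕ, Nat.card (Fin l → R) = (q ^ e) ^ l := by
      intro l
      rw [Nat.card_pi, Finset.prod_const, Finset.card_univ, Fintype.card_fin, hcard]
    rw [h3, h3] at h2
    have h4 := sum_span R hchain γ hγ e he hmin q hq m hm hcop 1 (by omega)
    have h5 : Finset.univ.filter (fun x : R => x ∈ Ideal.span {γ ^ 1}) =
        Finset.univ.filter (fun x : R => γ ∣ x) := by
      ext x
      simp only [Finset.mem_filter, Finset.mem_univ, true_and, pow_one,
        Ideal.mem_span_singleton]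
    rw [h5, Finset.sum_range_one, Nat.sub_zero] at h4
    have h6 : ((circCount R (m * p ^ k) (0 : R) : ℚ)) * ((q : ℚ) ^ e) ^ m =
        ((q : ℚ) ^ e) ^ (m * p ^ k) *
          ∑ x ∈ Finset.univ.filter (fun x : R => γ ∣ x), (circCount R m x : ℚ) := by
      have h2' : circCount R (m * p ^ k) (0 : R) * (q ^ e) ^ m = (q ^ e) ^ (m * p ^ k) *
          ∑ x ∈ Finset.univ.filter (fun x : R => γ ∣ x), circCount R m x := by
        convert h2
      exact_mod_cast h2'
    have h7 : ((q : ℚ) ^ e) ^ (m * p ^ k) =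
        (q : ℚ) ^ (e * (m * p ^ k - m)) * ((q : ℚ) ^ e) ^ m := by
      rw [← pow_mul, ← pow_mul, ← pow_add, ← Nat.mul_add, Nat.sub_add_cancel hmP]
    have h8 : (q : ℚ) ^ (e * (m * p ^ k)) =
        (q : ℚ) ^ (e * (m * p ^ k - m)) * (q : ℚ) ^ (e * m) := by
      rw [← pow_add, ← Nat.mul_add, Nat.sub_add_cancel hmP]
    rw [h7, h4] at h6
    have h9 : ((q : ℚ) ^ e) ^ m ≠ 0 := by positivity
    apply mul_right_cancel₀ h9
    rw [h6, h8]
    ring

end Pool.Agent.P8H95.CD
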