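import Pool.Agent.P8H95.CD.Fin

/-! Circulants over finite chain rings with `p γ = 0`, all sizes, non-unit determinants (helper95). -/

set_option autoImplicit false

namespace Pool.Agent.P8H95.CD

open Polynomial Matrix Pool.Agent.R823.CC Pool.Agent.R839.Circ

universe u

theorem Del_pow_of {A : Type u} [CommRing A] (p : ℕ) [hp : Fact p.Prime] (c : A)
    (hc : (p : A) * c = 0) (m k : ℕ) (hm : 0 < m) (f : A[X]) (h : c ∣ Del m f) :
    Del (m * p ^ k) f = (Del m f) ^ p ^ k := by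
  have : NeZero p := ⟨hp.out.ne_zero⟩
  induction k with
  | zero => simp
  | succ k ih =>
    have h1 : Del (m * p ^ (k + 1)) f = Del p (Nm (m * p ^ k) f) := by
      rw [← Del_tower (m * p ^ k) p (Nat.mul_pos hm (pow_pos hp.out.pos k)), pow_succ]
      congr 1
      ring
    obtain ⟨u, hu⟩ := Del_prime p (Nm (m * p ^ k) f)
    rw [eval_Nm, ih] at hu
    have h2 : (p : A) * (Del m f) ^ p ^ k = 0 := by
      obtain ⟨y, hy⟩ := dvd_trans h (dvd_pow_self (Del m f) (pow_pos hp.out.pos k).ne')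
      rw [hy, ← mul_assoc, hc, zero_mul]
    rw [h1, hu, h2, zero_mul, add_zero, ← pow_mul, ← pow_succ]

theorem add_pow_of {A : Type u} [CommRing A] (p : ℕ) [hp : Fact p.Prime] (c : A)
    (hc : (p : A) * c = 0) (k : ℕ) (x y : A) (h : c ∣ x) :
    (x + y) ^ p ^ k = x ^ p ^ k + y ^ p ^ k := by
  induction k with
  | zero => simp
  | succ k ih =>
    obtain ⟨r, hr⟩ := exists_add_pow_prime_eq hp.out (x ^ p ^ k) (y ^ p ^ k)
    have h2 : (p : A) * x ^ p ^ k = 0 := by
      obtain ⟨z, hz⟩ := dvd_trans h (dvd_pow_self x (pow_pos hp.out.pos k).ne')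
      rw [hz, ← mul_assoc, hc, zero_mul]
    rw [pow_succ, pow_mul, ih, hr, h2, zero_mul, zero_mul, add_zero, ← pow_mul, ← pow_mul]

theorem mainG (R : Type u) [CommRing R] [Finite R] [Nontrivial R]
    (hchain : ∀ I J : Ideal R, I ≤ J ∨ J ≤ I) (γ : R) (hγ : (Ideal.span {γ}).IsMaximal)
    (e : ℕ) (he : γ ^ e = 0) (hmin : ∀ k < e, γ ^ k ≠ 0) (q : ℕ)
    (hq : Nat.card (R ⧸ Ideal.span {γ}) = q) (p : ℕ) (hp : p.Prime) (hpγ : γ ∣ (p : R))
    (hpg : (p : R) * γ = 0) (m k : ℕ) (hm : 0 < m) (hpm : ¬ p ∣ m) :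
    (∀ a : R, γ ∣ a → (∀ x : R, γ ∣ x → x ^ p ^ k ≠ a) → circCount R (m * p ^ k) a = 0) ∧
    (∀ s : ℕ, 1 ≤ s → s * p ^ k < e → ∀ b : R, IsUnit b →
      (circCount R (m * p ^ k) ((γ ^ s * b) ^ p ^ k) : ℚ) =
        (q : ℚ) ^ (e * (m * p ^ k - m)) * (q : ℚ) ^ (e - (e + p ^ k - 1) / p ^ k) *
          EE e q m s) ∧
    (circCount R (m * p ^ k) (0 : R) : ℚ) = (q : ℚ) ^ (e * (m * p ^ k)) -
      (q : ℚ) ^ (e * (m * p ^ k - m)) * ∑ s ∈ Finset.range ((e + p ^ k - 1) / p ^ k),
        ((q : ℚ) ^ (e - s) - (q : ℚ) ^ (e - s - 1)) * EE e q m s := by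
  classical
  have : Fact p.Prime := ⟨hp⟩
  have : NeZero m := ⟨hm.ne'⟩
  let _ := Fintype.ofFinite R
  have hP : 0 < p ^ k := pow_pos hp.pos k
  have : NeZero (m * p ^ k) := ⟨(Nat.mul_pos hm hP).ne'⟩
  have hcop : Nat.Coprime m q := coprime_card' hγ p hpγ hq hpm
  obtain ⟨hA, -⟩ := Pool.Agent.R823.CC.main R hchain γ hγ e he hmin q hq m hm hcop
  have hA' : ∀ s < e, ∀ b : R, IsUnit b → (circCount R m (γ ^ s * b) : ℚ) = EE e q m s := hA
  have e0 : 0 < e := by
    rcases Nat.eq_zero_or_pos e with h | h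
    · rw [h, pow_zero] at he
      exact absurd he one_ne_zero
    · exact h
  have hL : IsLeast {s : ℕ | 0 < s ∧ γ ^ s = 0} e :=
    ⟨⟨e0, he⟩, fun s hs => not_lt.1 fun h => hmin s h hs.2⟩
  have hcard : Nat.card R = q ^ e := by rw [card_ring hγ hL, hq]
  have hq0 : 0 < q := by rw [← hq]; exact Nat.card_pos
  have hq0' : (0 : ℚ) < q := by exact_mod_cast hq0
  have hmP : m ≤ m * p ^ k := Nat.le_mul_of_pos_right m hP
  have h3' : ∀ l : ℕ, Nat.card (Fin l → R) = (q ^ e) ^ l := by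
    intro l
    rw [Nat.card_pi, Finset.prod_const, Finset.card_univ, Fintype.card_fin, hcard]
  have hred : ∀ a : R, γ ∣ a → (circCount R (m * p ^ k) a : ℚ) =
      (q : ℚ) ^ (e * (m * p ^ k - m)) *
      ∑ x ∈ Finset.univ.filter (fun x : R => γ ∣ x ∧ x ^ p ^ k = a), (circCount R m x : ℚ) := by
    intro a ha
    have h1 : circCount R (m * p ^ k) a =
        Nat.card {v : Fin (m * p ^ k) → R // γ ∣ Del m (pol (fold (m * p ^ k) m v)) ∧
          (Del m (pol (fold (m * p ^ k) m v))) ^ p ^ k = a} := by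
      rw [circCount_eq]
      refine Nat.card_congr (Equiv.subtypeEquivRight fun v => ?_)
      rw [← Del_fold (m * p ^ k) m v]
      constructor
      · intro h
        have h2 : γ ∣ Del m (pol v) := (dvd_Del_iff hγ p hpγ m k _).1 (by rw [h]; exact ha)
        exact ⟨h2, by rw [← Del_pow_of p γ hpg m k hm _ h2]; exact h⟩
      · rintro ⟨h2, h3⟩
        rw [Del_pow_of p γ hpg m k hm _ h2]
        exact h3
    have h2 := card_pull (fold (A := R) (m * p ^ k) m) (fold_surj (m * p ^ k) m hmP)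
      (fun w => γ ∣ Del m (pol w) ∧ (Del m (pol w)) ^ p ^ k = a)
    rw [← h1, card_fibP m (fun x : R => γ ∣ x ∧ x ^ p ^ k = a), h3', h3'] at h2
    have h6 : ((circCount R (m * p ^ k) a : ℚ)) * ((q : ℚ) ^ e) ^ m =
        ((q : ℚ) ^ e) ^ (m * p ^ k) *
          ∑ x ∈ Finset.univ.filter (fun x : R => γ ∣ x ∧ x ^ p ^ k = a),
            (circCount R m x : ℚ) := by
      have h2' : circCount R (m * p ^ k) a * (q ^ e) ^ m = (q ^ e) ^ (m * p ^ k) *
          ∑ x ∈ Finset.univ.filter (fun x : R => γ ∣ x ∧ x ^ p ^ k = a), circCount R m x := by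
        convert h2
      exact_mod_cast h2'
    have h7 : ((q : ℚ) ^ e) ^ (m * p ^ k) =
        (q : ℚ) ^ (e * (m * p ^ k - m)) * ((q : ℚ) ^ e) ^ m := by
      rw [← pow_mul, ← pow_mul, ← pow_add, ← Nat.mul_add, Nat.sub_add_cancel hmP]
    rw [h7] at h6
    have h4 : ((q : ℚ) ^ e) ^ m ≠ 0 := by positivity
    apply mul_right_cancel₀ h4
    rw [h6]
    ring
  obtain ⟨c1, c2⟩ := ceil_facts (e := e) hP
  set t := (e + p ^ k - 1) / p ^ k with ht
  have hte : t ≤ e := c2 e (Nat.le_mul_of_pos_right e hP)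
  have ht1 : 1 ≤ t := by
    rcases Nat.eq_zero_or_pos t with h | h
    · rw [h, zero_mul] at c1
      omega
    · exact h
  have hzero : ∀ x : R, x ^ p ^ k = 0 ↔ x ∈ Ideal.span {γ ^ t} := pow_zero_iff hγ hL hP
  have hdvd : ∀ x : R, x ∈ Ideal.span {γ ^ t} → γ ∣ x := by
    intro x hx
    exact dvd_trans (dvd_pow_self γ (by omega)) (Ideal.mem_span_singleton.1 hx)
  refine ⟨?_, ?_, ?_⟩
  · intro a ha hax
    have h1 := hred a ha
    rw [Finset.filter_false_of_mem (fun x _ h => hax x h.1 h.2), Finset.sum_empty,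
      mul_zero] at h1
    exact_mod_cast h1
  · intro s hs1 hs b hb
    have hst : s < t := by
      by_contra h
      have h1 : t * p ^ k ≤ s * p ^ k := Nat.mul_le_mul_right _ (not_lt.1 h)
      omega
    have hx0 : γ ∣ γ ^ s * b := Dvd.dvd.mul_right (dvd_pow_self γ (by omega)) b
    have hval : ∀ x ∈ Finset.univ.filter (fun x : R => γ ∣ x ∧ x ^ p ^ k = (γ ^ s * b) ^ p ^ k),
        (circCount R m x : ℚ) = EE e q m s := by
      intro x hx
      have hx' := (Finset.mem_filter.1 hx).2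
      have h1 : (x - γ ^ s * b) ^ p ^ k = 0 := by
        have h2 := add_pow_of p γ hpg k (γ ^ s * b) (x - γ ^ s * b) hx0
        rw [add_sub_cancel, hx'.2] at h2
        exact (left_eq_add.1 h2)
      rw [hzero] at h1
      obtain ⟨c, hc⟩ := Ideal.mem_span_singleton.1 h1
      have h2 : x = γ ^ s * (b + γ * (γ ^ (t - s - 1) * c)) := by
        have h3 : γ ^ t = γ ^ s * (γ * γ ^ (t - s - 1)) := by
          rw [← pow_succ', ← pow_add]
          congr 1
          omega
        have h4 : x = γ ^ s * b + (x - γ ^ s * b) := by ring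
        rw [h4, hc, h3]
        ring
      rw [h2]
      exact hA' s (lt_of_lt_of_le hst hte) _ (unit_add hγ hL b _ hb)
    have hcardf : (Finset.univ.filter
        (fun x : R => γ ∣ x ∧ x ^ p ^ k = (γ ^ s * b) ^ p ^ k)).card = q ^ (e - t) := by
      rw [← card_filter hγ hL hq hte]
      refine Finset.card_nbij' (fun x => x - γ ^ s * b) (fun y => γ ^ s * b + y) ?_ ?_ ?_ ?_
      · intro x hx
        simp only [Finset.coe_filter, Finset.mem_univ, true_and, Set.mem_ofPred_eq] at hx ⊢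
        rw [← hzero]
        have h2 := add_pow_of p γ hpg k (γ ^ s * b) (x - γ ^ s * b) hx0
        rw [add_sub_cancel, hx.2] at h2
        exact (left_eq_add.1 h2)
      · intro y hy
        simp only [Finset.coe_filter, Finset.mem_univ, true_and, Set.mem_ofPred_eq] at hy ⊢
        refine ⟨dvd_add hx0 (hdvd y hy), ?_⟩
        rw [add_pow_of p γ hpg k (γ ^ s * b) y hx0, (hzero y).2 hy, add_zero]
      · intro x _
        ring
      · intro y _
        ring
    have hadv : γ ∣ (γ ^ s * b) ^ p ^ k := dvd_trans hx0 (dvd_pow_self _ hP.ne')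
    rw [hred _ hadv, Finset.sum_congr rfl hval, Finset.sum_const, hcardf, nsmul_eq_mul]
    push_cast
    ring
  · have h5 : Finset.univ.filter (fun x : R => γ ∣ x ∧ x ^ p ^ k = 0) =
        Finset.univ.filter (fun x : R => x ∈ Ideal.span {γ ^ t}) := by
      ext x
      simp only [Finset.mem_filter, Finset.mem_univ, true_and]
      exact ⟨fun h => (hzero x).1 h.2, fun h => ⟨hdvd x h, (hzero x).2 h⟩⟩
    have h6 := sum_span R hchain γ hγ e he hmin q hq m hm hcop t hte
    have h7 : ∑ x ∈ Finset.univ.filter (fun x : R => x ∈ Ideal.span {γ ^ t}),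
        (circCount R m x : ℚ) = (q : ℚ) ^ (e * m) -
        ∑ s ∈ Finset.range t, ((q : ℚ) ^ (e - s) - (q : ℚ) ^ (e - s - 1)) * EE e q m s := by
      convert h6
    rw [hred 0 (dvd_zero γ), h5, h7, mul_sub, ← pow_add, ← Nat.mul_add,
      Nat.sub_add_cancel hmP]

end Pool.Agent.P8H95.CD
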