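import Pool.Agent.P8H95.CD.Chain

/-! Circulants of size `m p^k` over arbitrary finite chain rings with `e ≤ k + 1` (helper95). -/

set_option autoImplicit false

namespace Pool.Agent.P8H95.CD

open Polynomial Matrix Pool.Agent.R823.CC Pool.Agent.R839.Circ

universe u

section step

variable {A : Type u} [CommRing A]

/-- if `c` divides `n` and the sum of the entries of a row, then the determinant of the circulant
is divisible by `c` times this sum. -/
theorem det_dvd (n : ℕ) [NeZero n] (v : Fin n → A) (c : A) (h1 : c ∣ (n : A)) (h2 : c ∣ ∑ i, v i) :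
    c * ∑ i, v i ∣ (cirM v).det := by
  set D : A := ∑ i, v i with hD
  have hrow : ∀ i : Fin n, ∑ j, cirM v i j = D := by
    intro i
    change ∑ j, v (j - i) = D
    exact Equiv.sum_comp (Equiv.subRight i) v
  have hcol : ∀ j : Fin n, ∑ i, cirM v i j = D := by
    intro j
    change ∑ i, v (j - i) = D
    exact Equiv.sum_comp (Equiv.subLeft j) v
  set M : Matrix (Fin n) (Fin n) A := cirM v with hM
  have e1 : M.det = D * (M.updateCol 0 (fun _ => 1)).det := by
    have h3 := Matrix.det_updateCol_sum M 0 (fun _ => (1 : A))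
    simp only [one_smul, hrow] at h3
    rw [← h3]
    have h4 : (fun _ : Fin n => D) = D • (fun _ : Fin n => (1 : A)) := by
      funext i
      simp
    rw [h4, Matrix.det_updateCol_smul]
  set M' : Matrix (Fin n) (Fin n) A := M.updateCol 0 (fun _ => 1) with hM'
  have hsum : ∀ j : Fin n, c ∣ ∑ k, M' k j := by
    intro j
    by_cases hj : j = 0
    · subst hj
      have : ∀ k, M' k 0 = 1 := by intro k; simp [hM']
      simp only [this, Finset.sum_const, Finset.card_univ, Fintype.card_fin, nsmul_eq_mul, mul_one]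
      exact h1
    · have : ∀ k, M' k j = M k j := by
        intro k
        rw [hM', Matrix.updateCol_ne hj]
      simp only [this, hcol]
      exact h2
  choose r hr using hsum
  have e2 : M'.det = c * (M'.updateRow 0 r).det := by
    have h3 := Matrix.det_updateRow_sum M' 0 (fun _ => (1 : A))
    simp only [one_smul] at h3
    rw [← h3]
    have h4 : (∑ k, M' k) = c • r := by
      funext j
      rw [Finset.sum_apply, hr, Pi.smul_apply, smul_eq_mul]
    rw [h4, Matrix.det_updateRow_smul]
  rw [e1, e2]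
  exact ⟨(M'.updateRow 0 r).det, by ring⟩

theorem Del_dvd (n : ℕ) [NeZero n] (G : A[X]) (c : A) (h1 : c ∣ (n : A)) (h2 : c ∣ G.eval 1) :
    c * G.eval 1 ∣ Del n G := by
  obtain ⟨v, g, hg⟩ := exists_vec (n := n) G
  have e1 : G.eval 1 = ∑ i, v i := by
    have h3 := congrArg (eval 1) hg
    simp only [eval_sub, eval_mul, eval_pow, eval_X, one_pow, eval_one, sub_self, zero_mul] at h3
    rw [sub_eq_zero] at h3
    rw [h3, pol, eval_finset_sum]
    simp
  have e2 : Del n G = (cirM v).det := by
    rw [Del, ← aeval_pol]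
    congr 1
    have h4 : G = pol v + (X ^ n - 1) * g := by rw [← hg]; ring
    rw [h4, map_add, map_mul, aeval_X_pow_sub, zero_mul, add_zero]
  rw [e1] at h2 ⊢
  rw [e2]
  exact det_dvd n v c h1 h2

theorem eval_Nm (a : ℕ) (f : A[X]) : (Nm a f).eval 1 = Del a f := by
  have h := det_map_aux (RingHom.id A) (evalRingHom (1 : A)) (by ext; simp) a (X : A[X]) f
  rw [Polynomial.map_id, coe_evalRingHom, eval_X] at h
  exact h.symm

theorem Del_tower_dvd (p : ℕ) [hp : Fact p.Prime] (c : A) (hc : c ∣ (p : A)) (m k : ℕ) (hm : 0 < m)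
    (f : A[X]) (h : c ∣ Del m f) : c ^ k * Del m f ∣ Del (m * p ^ k) f := by
  have : NeZero p := ⟨hp.out.ne_zero⟩
  induction k with
  | zero => simp
  | succ k ih =>
    have h1 : Del (m * p ^ (k + 1)) f = Del p (Nm (m * p ^ k) f) := by
      rw [← Del_tower (m * p ^ k) p (Nat.mul_pos hm (pow_pos hp.out.pos k)), pow_succ]
      congr 1
      ring
    have h2 : c ∣ Del (m * p ^ k) f := dvd_trans (Dvd.dvd.mul_left h _) ih
    have h3 := Del_dvd p (Nm (m * p ^ k) f) c hc (by rw [eval_Nm]; exact h2)
    rw [eval_Nm] at h3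
    rw [h1]
    refine dvd_trans ?_ h3
    rw [pow_succ', mul_assoc]
    exact mul_dvd_mul_left c ih

end step

open scoped Classical in
/-- the number of the circulants whose determinant has a given property -/
theorem card_fibP {R : Type u} [CommRing R] [Fintype R] (m : ℕ) [NeZero m] (T : R → Prop) :
    Nat.card {w : Fin m → R // T (Del m (pol w))} =
      ∑ x ∈ Finset.univ.filter (fun x : R => T x), circCount R m x := by
  have h1 : Nat.card {w : Fin m → R // T (Del m (pol w))} =
      (Finset.univ.filter (fun w : Fin m → R => T (Del m (pol w)))).card := by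
    rw [Nat.card_eq_fintype_card, Fintype.card_subtype]
  rw [h1, Finset.card_eq_sum_card_fiberwise (f := fun w : Fin m → R => Del m (pol w))
    (t := Finset.univ.filter (fun x : R => T x))]
  · refine Finset.sum_congr rfl fun x hx => ?_
    rw [circCount_eq, Nat.card_eq_fintype_card, Fintype.card_subtype]
    congr 1
    ext w
    simp only [Finset.mem_filter, Finset.mem_univ, true_and]
    constructor
    · exact fun h => h.2
    · intro h
      exact ⟨by rw [h]; exact (Finset.mem_filter.1 hx).2, h⟩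
  · intro w hw
    simp only [Finset.coe_filter, Finset.mem_univ, true_and, Set.mem_ofPred_eq] at hw ⊢
    exact hw

theorem coprime_card' {R : Type u} [CommRing R] [Finite R] {γ : R}
    (hmax : (Ideal.span {γ}).IsMaximal) (p : ℕ)
    [hp : Fact p.Prime] (hpγ : γ ∣ (p : R)) {q m : ℕ}
    (hq : Nat.card (R ⧸ Ideal.span {γ}) = q) (hpm : ¬ p ∣ m) : Nat.Coprime m q := by
  letI := Ideal.Quotient.field (Ideal.span {γ})
  have : Finite (R ⧸ Ideal.span {γ}) :=
    Finite.of_surjective (Ideal.Quotient.mk (Ideal.span {γ})) Ideal.Quotient.mk_surjective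
  let _ := Fintype.ofFinite (R ⧸ Ideal.span {γ})
  have : CharP (R ⧸ Ideal.span {γ}) p := by
    apply (CharP.charP_iff_prime_eq_zero hp.out).2
    rw [← map_natCast (Ideal.Quotient.mk (Ideal.span {γ})) p, Ideal.Quotient.eq_zero_iff_mem]
    exact Ideal.mem_span_singleton.2 hpγ
  obtain ⟨r, _, hr⟩ := FiniteField.card (R ⧸ Ideal.span {γ}) p
  rw [← hq, Nat.card_eq_fintype_card, hr]
  exact Nat.Coprime.pow_right _ (Nat.coprime_comm.1 ((Nat.Prime.coprime_iff_not_dvd hp.out).2 hpm))

theorem dvd_Del_iff {R : Type u} [CommRing R] {γ : R}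
    (hmax : (Ideal.span {γ}).IsMaximal) (p : ℕ)
    [hp : Fact p.Prime] (hpγ : γ ∣ (p : R)) (m k : ℕ) (f : R[X]) :
    γ ∣ Del (m * p ^ k) f ↔ γ ∣ Del m f := by
  letI := Ideal.Quotient.field (Ideal.span {γ})
  have : CharP (R ⧸ Ideal.span {γ}) p := by
    apply (CharP.charP_iff_prime_eq_zero hp.out).2
    rw [← map_natCast (Ideal.Quotient.mk (Ideal.span {γ})) p, Ideal.Quotient.eq_zero_iff_mem]
    exact Ideal.mem_span_singleton.2 hpγ
  have h0 : ∀ x : R, γ ∣ x ↔ Ideal.Quotient.mk (Ideal.span {γ}) x = 0 := by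
    intro x
    rw [Ideal.Quotient.eq_zero_iff_mem, Ideal.mem_span_singleton]
  rw [h0, h0, ← Del_map, ← Del_map, Del_pow p m k]
  exact pow_eq_zero_iff (pow_pos hp.out.pos k).ne'

open scoped Classical in
theorem sum_span (R : Type u) [CommRing R] [Fintype R] [Nontrivial R]
    (hchain : ∀ I J : Ideal R, I ≤ J ∨ J ≤ I) (γ : R) (hγ : (Ideal.span {γ}).IsMaximal)
    (e : ℕ) (he : γ ^ e = 0) (hmin : ∀ k < e, γ ^ k ≠ 0) (q : ℕ)
    (hq : Nat.card (R ⧸ Ideal.span {γ}) = q) (m : ℕ) (hm : 0 < m) (hcop : Nat.Coprime m q) :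
    ∀ i ≤ e, ∑ x ∈ Finset.univ.filter (fun x : R => x ∈ Ideal.span {γ ^ i}),
      (circCount R m x : ℚ) = (q : ℚ) ^ (e * m) -
        ∑ s ∈ Finset.range i, ((q : ℚ) ^ (e - s) - (q : ℚ) ^ (e - s - 1)) * EE e q m s := by
  have : NeZero m := ⟨hm.ne'⟩
  obtain ⟨hA, -⟩ := Pool.Agent.R823.CC.main R hchain γ hγ e he hmin q hq m hm hcop
  have hA' : ∀ s < e, ∀ b : R, IsUnit b → (circCount R m (γ ^ s * b) : ℚ) = EE e q m s := hA
  have e0 : 0 < e := by
    rcases Nat.eq_zero_or_pos e with h | h
    · rw [h, pow_zero] at he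
      exact absurd he one_ne_zero
    · exact h
  have hL : IsLeast {s : ℕ | 0 < s ∧ γ ^ s = 0} e :=
    ⟨⟨e0, he⟩, fun s hs => not_lt.1 fun h => hmin s h hs.2⟩
  have hcard : Nat.card R = q ^ e := by rw [card_ring hγ hL, hq]
  have hq0 : 0 < q := by rw [← hq]; exact Nat.card_pos
  intro i
  induction i with
  | zero =>
    intro _
    have h1 := card_fib m 0 (1 : R)
    have h2 : Nat.card {w : Fin m → R // (Del m (pol w)) ^ 0 = 1} = q ^ (e * m) := by
      have h3 : Nat.card {w : Fin m → R // (Del m (pol w)) ^ 0 = 1} = Nat.card (Fin m → R) :=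
        Nat.card_congr (Equiv.subtypeUnivEquiv (by intro w; rw [pow_zero]))
      rw [h3, Nat.card_pi, Finset.prod_const, Finset.card_univ, Fintype.card_fin, hcard,
        ← pow_mul]
    rw [h2] at h1
    simp only [pow_zero, Ideal.span_singleton_one, Submodule.mem_top, Finset.range_zero,
      Finset.sum_empty, sub_zero] at h1 ⊢
    exact_mod_cast h1.symm
  | succ i ih =>
    intro hi
    have h1 := ih (by omega)
    have hsub : Finset.univ.filter (fun x : R => x ∈ Ideal.span {γ ^ (i + 1)}) ⊆
        Finset.univ.filter (fun x : R => x ∈ Ideal.span {γ ^ i}) := by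
      intro x hx
      simp only [Finset.mem_filter, Finset.mem_univ, true_and] at hx ⊢
      rw [Ideal.mem_span_singleton] at hx ⊢
      exact dvd_trans (pow_dvd_pow γ (Nat.le_succ i)) hx
    rw [← Finset.sum_sdiff hsub] at h1
    have h2 : ∀ x ∈ (Finset.univ.filter (fun x : R => x ∈ Ideal.span {γ ^ i})) \
        (Finset.univ.filter (fun x : R => x ∈ Ideal.span {γ ^ (i + 1)})),
        (circCount R m x : ℚ) = EE e q m i := by
      intro x hx
      simp only [Finset.mem_sdiff, Finset.mem_filter, Finset.mem_univ, true_and] at hx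
      obtain ⟨b, hb, rfl⟩ := unit_of hγ hL i x hx.1 hx.2
      exact hA' i (by omega) b hb
    rw [Finset.sum_congr rfl h2, Finset.sum_const, Finset.card_sdiff_of_subset hsub,
      card_filter hγ hL hq (show i ≤ e by omega), card_filter hγ hL hq hi, nsmul_eq_mul,
      Nat.cast_sub (Nat.pow_le_pow_right hq0 (by omega))] at h1
    rw [Finset.sum_range_succ]
    have h3 : e - (i + 1) = e - i - 1 := by omega
    rw [h3] at h1
    push_cast at h1
    linarith

end Pool.Agent.P8H95.CD
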