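import Pool.Agent.P8H95.CD.Gam

/-! Reduction of the size `m p^(j+l)` to the size `m p^j` (helper95). -/

set_option autoImplicit false

namespace Pool.Agent.P8H95.CD

open Polynomial Matrix Pool.Agent.R823.CC Pool.Agent.R839.Circ

universe u

theorem tau_mono (p r j l : ℕ) : tau p r j ≤ tau p r (j + l) := by
  induction l with
  | zero => exact le_rfl
  | succ l ih =>
    refine ih.trans ?_
    change tau p r (j + l) ≤ tau p r (j + l) + _
    exact Nat.le_add_right _ _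

theorem Del_pow_ge {A : Type u} [CommRing A] (p : ℕ) [hp : Fact p.Prime] (c : A) (r e : ℕ)
    (hc : c ^ r ∣ (p : A)) (he : c ^ e = 0) (m j l : ℕ) (hj : e ≤ r + tau p r j) (hm : 0 < m)
    (f : A[X]) (h : c ∣ Del m f) :
    Del (m * p ^ (j + l)) f = (Del (m * p ^ j) f) ^ p ^ l := by
  have : NeZero p := ⟨hp.out.ne_zero⟩
  induction l with
  | zero => simp
  | succ l ih =>
    have h1 : Del (m * p ^ (j + (l + 1))) f = Del p (Nm (m * p ^ (j + l)) f) := by
      rw [← Del_tower (m * p ^ (j + l)) p (Nat.mul_pos hm (pow_pos hp.out.pos _)),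
        ← add_assoc, pow_succ]
      congr 1
      ring
    obtain ⟨u, hu⟩ := Del_prime p (Nm (m * p ^ (j + l)) f)
    rw [eval_Nm] at hu
    have h2 : (p : A) * Del (m * p ^ (j + l)) f = 0 := by
      obtain ⟨y, hy⟩ := Del_tau p c r hc m (j + l) hm f h
      obtain ⟨z, hz⟩ := hc
      rw [hy, hz]
      have h3 : c ^ r * z * (c ^ tau p r (j + l) * y) = c ^ (r + tau p r (j + l)) * (z * y) := by
        rw [pow_add]; ring
      rw [h3, pow_eq_zero_of_le (hj.trans (Nat.add_le_add_left (tau_mono p r j l) r)) he,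
        zero_mul]
    rw [h1, hu, h2, zero_mul, add_zero, ih, ← pow_mul, ← pow_succ]

open scoped Classical in
theorem red (R : Type u) [CommRing R] [Fintype R] [Nontrivial R]
    (γ : R) (hγ : (Ideal.span {γ}).IsMaximal)
    (e : ℕ) (he : γ ^ e = 0) (hmin : ∀ k < e, γ ^ k ≠ 0) (q : ℕ)
    (hq : Nat.card (R ⧸ Ideal.span {γ}) = q) (p : ℕ) (hp : p.Prime) (r : ℕ) (hr : 1 ≤ r)
    (hrp : γ ^ r ∣ (p : R)) (m j l : ℕ) (hm : 0 < m) (hj : e ≤ r + tau p r j)
    (a : R) (ha : γ ∣ a) :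
    circCount R (m * p ^ (j + l)) a = q ^ (e * (m * p ^ (j + l) - m * p ^ j)) *
      ∑ x ∈ Finset.univ.filter (fun x : R => γ ∣ x ∧ x ^ p ^ l = a),
        circCount R (m * p ^ j) x := by
  have hpγ : γ ∣ (p : R) := dvd_trans (dvd_pow_self γ (by omega)) hrp
  have : Fact p.Prime := ⟨hp⟩
  have hP : 0 < p ^ j := pow_pos hp.pos j
  have hPl : 0 < p ^ l := pow_pos hp.pos l
  have hP2 : 0 < p ^ (j + l) := pow_pos hp.pos _
  have : NeZero (m * p ^ j) := ⟨(Nat.mul_pos hm hP).ne'⟩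
  have : NeZero (m * p ^ (j + l)) := ⟨(Nat.mul_pos hm hP2).ne'⟩
  have e0 : 0 < e := by
    rcases Nat.eq_zero_or_pos e with h | h
    · rw [h, pow_zero] at he
      exact absurd he one_ne_zero
    · exact h
  have hL : IsLeast {s : ℕ | 0 < s ∧ γ ^ s = 0} e :=
    ⟨⟨e0, he⟩, fun s hs => not_lt.1 fun h => hmin s h hs.2⟩
  have hcard : Nat.card R = q ^ e := by rw [card_ring hγ hL, hq]
  have hq0 : 0 < q := by rw [← hq]; exact Nat.card_pos
  have hmP : m * p ^ j ≤ m * p ^ (j + l) := by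
    rw [pow_add, ← mul_assoc]
    exact Nat.le_mul_of_pos_right _ hPl
  have h3' : ∀ i : ℕ, Nat.card (Fin i → R) = (q ^ e) ^ i := by
    intro i
    rw [Nat.card_pi, Finset.prod_const, Finset.card_univ, Fintype.card_fin, hcard]
  have hdv : ∀ f : R[X], γ ∣ Del (m * p ^ (j + l)) f ↔ γ ∣ Del (m * p ^ j) f := by
    intro f
    rw [dvd_Del_iff hγ p hpγ m (j + l), dvd_Del_iff hγ p hpγ m j]
  have hpw : ∀ f : R[X], γ ∣ Del (m * p ^ j) f →
      Del (m * p ^ (j + l)) f = (Del (m * p ^ j) f) ^ p ^ l := by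
    intro f hf
    exact Del_pow_ge p γ r e hrp he m j l hj hm f ((dvd_Del_iff hγ p hpγ m j f).1 hf)
  have hfold : ∀ v : Fin (m * p ^ (j + l)) → R,
      Del (m * p ^ j) (pol v) = Del (m * p ^ j) (pol (fold (m * p ^ (j + l)) (m * p ^ j) v)) :=
    fun v => Del_fold _ _ v
  have h1 : circCount R (m * p ^ (j + l)) a =
      Nat.card {v : Fin (m * p ^ (j + l)) → R //
        γ ∣ Del (m * p ^ j) (pol (fold (m * p ^ (j + l)) (m * p ^ j) v)) ∧
        (Del (m * p ^ j) (pol (fold (m * p ^ (j + l)) (m * p ^ j) v))) ^ p ^ l = a} := by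
    rw [circCount_eq]
    refine Nat.card_congr (Equiv.subtypeEquivRight fun v => ?_)
    rw [← hfold v]
    constructor
    · intro h
      have h2 : γ ∣ Del (m * p ^ j) (pol v) := (hdv _).1 (by rw [h]; exact ha)
      exact ⟨h2, by rw [← hpw _ h2]; exact h⟩
    · rintro ⟨h2, h3⟩
      rw [hpw _ h2]
      exact h3
  have h2 := card_pull (fold (A := R) (m * p ^ (j + l)) (m * p ^ j))
    (fold_surj (m * p ^ (j + l)) (m * p ^ j) hmP)
    (fun w => γ ∣ Del (m * p ^ j) (pol w) ∧ (Del (m * p ^ j) (pol w)) ^ p ^ l = a)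
  rw [← h1, card_fibP (m * p ^ j) (fun x : R => γ ∣ x ∧ x ^ p ^ l = a), h3', h3'] at h2
  have h7 : (q ^ e) ^ (m * p ^ (j + l)) =
      q ^ (e * (m * p ^ (j + l) - m * p ^ j)) * (q ^ e) ^ (m * p ^ j) := by
    rw [← pow_mul, ← pow_mul, ← pow_add, ← Nat.mul_add, Nat.sub_add_cancel hmP]
  rw [h7] at h2
  have h4 : 0 < (q ^ e) ^ (m * p ^ j) := by positivity
  have h5 : ∑ x ∈ Finset.univ.filter (fun x : R => γ ∣ x ∧ x ^ p ^ l = a),
      circCount R (m * p ^ j) x =
      ∑ x with γ ∣ x ∧ x ^ p ^ l = a, circCount R (m * p ^ j) x := by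
    congr
  apply Nat.eq_of_mul_eq_mul_right h4
  rw [h2, mul_assoc, mul_assoc]
  congr 1
  rw [mul_comm]
  congr 1
  convert h5

end Pool.Agent.P8H95.CD
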