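import Pool.Agent.P8H95.CD.Mixed

/-! Valuations of circulant determinants of size `m p^k` (helper95). -/

set_option autoImplicit false

namespace Pool.Agent.P8H95.CD

open Polynomial Matrix Pool.Agent.R823.CC Pool.Agent.R839.Circ

universe u

section step

theorem det_eq {A : Type u} [CommRing A] (n : ℕ) [NeZero n] (v : Fin n → A) :
    (cirM v).det = (∑ i, v i) * ((cirM v).updateCol 0 (fun _ => 1)).det := by
  set D : A := ∑ i, v i with hD
  have hrow : ∀ i : Fin n, ∑ j, cirM v i j = D := by
    intro i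
    change ∑ j, v (j - i) = D
    exact Equiv.sum_comp (Equiv.subRight i) v
  have h3 := Matrix.det_updateCol_sum (cirM v) 0 (fun _ => (1 : A))
  simp only [one_smul, hrow] at h3
  rw [← h3]
  have h4 : (fun _ : Fin n => D) = D • (fun _ : Fin n => (1 : A)) := by
    funext i
    simp
  rw [h4, Matrix.det_updateCol_smul]

theorem Del_char {A : Type u} [CommRing A] (p : ℕ) [Fact p.Prime] [CharP A p] (f : A[X]) :
    Del p f = (f.eval 1) ^ p := by
  rw [← eval_Nm, Nm_eq, eval_one_map, frobenius_def]

/-- the determinant of a circulant of prime size `p` is `D ^ p + p D u`. -/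
theorem det_prime {A : Type u} [CommRing A] (p : ℕ) [hp : Fact p.Prime] [NeZero p] (v : Fin p → A) :
    ∃ u : A, (cirM v).det = (∑ i, v i) ^ p + (p : A) * (∑ i, v i) * u := by
  let V : Fin p → MvPolynomial (Fin p) ℤ := fun i => MvPolynomial.X i
  let E : MvPolynomial (Fin p) ℤ := ((cirM V).updateCol 0 (fun _ => 1)).det
  let D : MvPolynomial (Fin p) ℤ := ∑ i, V i
  have h1 : (cirM V).det = D * E := det_eq p V
  let π : MvPolynomial (Fin p) ℤ →+* MvPolynomial (Fin p) (ZMod p) :=
    MvPolynomial.map (Int.castRingHom (ZMod p))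
  have h2 : π (cirM V).det = (π D) ^ p := by
    have h3 : π (cirM V).det = (cirM (fun i => π (V i))).det := by
      rw [RingHom.map_det]
      rfl
    rw [h3, det_cirM, Del_char]
    congr 1
    rw [pol, eval_finset_sum, map_sum]
    simp
  have h3 : π D ≠ 0 := by
    intro h
    have h4 := congrArg (MvPolynomial.eval (Pi.single (0 : Fin p) (1 : ZMod p))) h
    simp [D, V, π] at h4
  have h4 : π (E - D ^ (p - 1)) = 0 := by
    have h5 : π D * π (E - D ^ (p - 1)) = 0 := by
      have h6 : π D * (π D) ^ (p - 1) = (π D) ^ p := by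
        rw [← pow_succ']
        congr 1
        have := hp.out.pos
        omega
      rw [map_sub, map_pow, mul_sub, h6, ← h2, h1, map_mul, sub_self]
    exact (mul_eq_zero.1 h5).resolve_left h3
  obtain ⟨U, hU⟩ := (MvPolynomial.C_dvd_iff_zmod p _).mpr h4
  let ρ : MvPolynomial (Fin p) ℤ →+* A := (MvPolynomial.aeval v).toRingHom
  have h7 : ∀ i, ρ (V i) = v i := by
    intro i
    simp [ρ, V]
  have h8 : ρ D = ∑ i, v i := by
    simp only [D, map_sum, h7]
  refine ⟨ρ U, ?_⟩
  have h9 : (cirM v).det = ρ (cirM V).det := by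
    rw [RingHom.map_det]
    congr 1
    ext i j
    exact (h7 _).symm
  have h10 : (cirM V).det = D ^ p + (p : MvPolynomial (Fin p) ℤ) * D * U := by
    have h11 : E = D ^ (p - 1) + MvPolynomial.C (p : ℤ) * U := by
      rw [← hU]; ring
    have h12 : (MvPolynomial.C (p : ℤ) : MvPolynomial (Fin p) ℤ) = (p : MvPolynomial (Fin p) ℤ) := by
      simp
    have h13 : D * D ^ (p - 1) = D ^ p := by
      rw [← pow_succ']
      congr 1
      have := hp.out.pos
      omega
    rw [h1, h11, h12, mul_add, h13]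
    ring
  rw [h9, h10, map_add, map_pow, map_mul, map_mul, map_natCast, h8]

theorem Del_prime {A : Type u} [CommRing A] (p : ℕ) [hp : Fact p.Prime] [NeZero p] (G : A[X]) :
    ∃ u : A, Del p G = (G.eval 1) ^ p + (p : A) * G.eval 1 * u := by
  obtain ⟨v, g, hg⟩ := exists_vec (n := p) G
  have e1 : G.eval 1 = ∑ i, v i := by
    have h3 := congrArg (eval 1) hg
    simp only [eval_sub, eval_mul, eval_pow, eval_X, one_pow, eval_one, sub_self, zero_mul] at h3
    rw [sub_eq_zero] at h3
    rw [h3, pol, eval_finset_sum]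
    simp
  have e2 : Del p G = (cirM v).det := by
    rw [Del, ← aeval_pol]
    congr 1
    have h4 : G = pol v + (X ^ p - 1) * g := by rw [← hg]; ring
    rw [h4, map_add, map_mul, aeval_X_pow_sub, zero_mul, add_zero]
  rw [e1, e2]
  exact det_prime p v

/-- `τ_0 = 1`, `τ_{j+1} = τ_j + min(r, (p-1) τ_j)`. -/
def tau (p r : ℕ) : ℕ → ℕ
  | 0 => 1
  | j + 1 => tau p r j + min r ((p - 1) * tau p r j)

theorem Del_tau {A : Type u} [CommRing A] (p : ℕ) [hp : Fact p.Prime] (c : A) (r : ℕ)
    (hc : c ^ r ∣ (p : A)) (m k : ℕ) (hm : 0 < m) (f : A[X]) (h : c ∣ Del m f) :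
    c ^ tau p r k ∣ Del (m * p ^ k) f := by
  have : NeZero p := ⟨hp.out.ne_zero⟩
  induction k with
  | zero => simpa [tau] using h
  | succ k ih =>
    have h1 : Del (m * p ^ (k + 1)) f = Del p (Nm (m * p ^ k) f) := by
      rw [← Del_tower (m * p ^ k) p (Nat.mul_pos hm (pow_pos hp.out.pos k)), pow_succ]
      congr 1
      ring
    obtain ⟨u, hu⟩ := Del_prime p (Nm (m * p ^ k) f)
    rw [eval_Nm] at hu
    rw [h1, hu]
    obtain ⟨x, hx⟩ := ih
    obtain ⟨y, hy⟩ := hc
    set t := tau p r k
    have h2 : tau p r (k + 1) = t + min r ((p - 1) * t) := rfl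
    have h3 : tau p r (k + 1) ≤ t + r := by
      rw [h2]; exact Nat.add_le_add_left (min_le_left _ _) _
    have h4 : tau p r (k + 1) ≤ t * p := by
      have h5 : t + (p - 1) * t = t * p := by
        have := hp.out.pos
        obtain ⟨w, hw⟩ : ∃ w, p = w + 1 := ⟨p - 1, by omega⟩
        rw [hw, Nat.add_sub_cancel]
        ring
      rw [h2, ← h5]
      exact Nat.add_le_add_left (min_le_right _ _) _
    refine dvd_add ?_ ?_
    · rw [hx, mul_pow, ← pow_mul]
      exact Dvd.dvd.mul_right (pow_dvd_pow c h4) _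
    · rw [hx, hy]
      have h6 : c ^ r * y * (c ^ t * x) * u = c ^ (t + r) * (y * x * u) := by
        rw [pow_add]; ring
      rw [h6]
      exact Dvd.dvd.mul_right (pow_dvd_pow c h3) _

end step

end Pool.Agent.P8H95.CD
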